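import Mathlib

namespace Pool.Agent.Results.MP_023059_nt.Pac

open Cardinal MvPolynomial
open scoped TensorProduct

lemma ext {R L : Type} [Field R] [Field L] (hR : #R ≤ ℵ₀) (hL : #L ≤ 𝔠) (f : R →+* L)
    (g : R →+* ℂ) : ∃ σ : L →+* ℂ, ∀ r, σ (f r) = g r := by
  let := f.toAlgebra
  let := g.toAlgebra
  obtain ⟨ι, v, hv⟩ := exists_isTranscendenceBasis' R L
  obtain ⟨ι', v', hv'⟩ := exists_isTranscendenceBasis' R ℂ
  have h1 := IsAlgClosed.cardinal_eq_cardinal_transcendence_basis_of_aleph0_lt' v' hv' hR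
    (by rw [mk_complex]; exact aleph0_lt_continuum)
  obtain ⟨e⟩ : Nonempty (ι ↪ ι') := (le_def _ _).1 (((mk_le_of_injective hv.1.injective).trans
    hL).trans_eq (mk_complex.symm.trans h1))
  let A := Algebra.adjoin R (Set.range v)
  let j : A →ₐ[R] ℂ := (aeval (v' ∘ e)).comp hv.1.aevalEquiv.symm.toAlgHom
  let : Algebra A ℂ := j.toRingHom.toAlgebra
  have := hv.isAlgebraic
  have : Module.IsTorsionFree A ℂ := Module.isTorsionFree_iff_algebraMap_injective.2
    (show Function.Injective (aeval (v' ∘ e) ∘ hv.1.aevalEquiv.symm) from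
      Function.Injective.comp (algebraicIndependent_iff_injective_aeval.1
      (hv'.1.comp e e.injective)) hv.1.aevalEquiv.symm.injective)
  let σ : L →ₐ[A] ℂ := IsAlgClosed.lift
  exact ⟨σ, fun r => (σ.commutes (algebraMap R A r)).trans (j.commutes r)⟩

def P (F : Subfield ℂ) : Prop := #F ≤ ℵ₀ ∧ ∀ y ∈ F, y ^ 2 ≠ -1 ∧ y ^ 2 ≠ 2 ∧ y ^ 2 ≠ -2

noncomputable def S (F : Subfield ℂ) (m : ℕ) : Subring (MvPolynomial (Fin m) ℂ) :=
  (map F.subtype).range

lemma S_mono {F F' : Subfield ℂ} (h : F ≤ F') (m : ℕ) : S F m ≤ S F' m := by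
  rintro _ ⟨u, rfl⟩
  exact ⟨map (Subfield.inclusion h) u, by rw [map_map]; rfl⟩

lemma agree {F : Subfield ℂ} {m : ℕ} {T : Type} [CommRing T]
    (φ ψ : MvPolynomial (Fin m) ℂ →+* T) (h1 : ∀ c ∈ F, φ (C c) = ψ (C c))
    (h2 : ∀ i, φ (X i) = ψ (X i)) : ∀ f ∈ S F m, φ f = ψ f := by
  rintro _ ⟨u, rfl⟩
  exact DFunLike.congr_fun (MvPolynomial.ringHom_ext (f := φ.comp (map F.subtype))
    (g := ψ.comp (map F.subtype)) (fun c => by simpa using h1 c c.2) (by simpa using h2)) u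

lemma conj {F : Subfield ℂ} (hF : #F ≤ ℵ₀) {y : ℂ} (a : F) (h : y ^ 2 = a)
    (ha : ∀ b : F, b ^ 2 ≠ a) : ∃ τ : ℂ →+* ℂ, (∀ c ∈ F, τ c = c) ∧ τ y = -y := by
  have := Fact.mk (X_pow_sub_C_irreducible_of_prime Nat.prime_two ha)
  obtain ⟨τ, hτ⟩ := ext (R := AdjoinRoot (Polynomial.X ^ 2 - Polynomial.C a))
    ((mk_le_of_surjective AdjoinRoot.mk_surjective).trans
      (Polynomial.cardinalMk_le_max.trans (max_le hF le_rfl))) mk_complex.le
    (AdjoinRoot.lift F.subtype y (by simp [h])) (AdjoinRoot.lift F.subtype (-y) (by simp [h]))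
  exact ⟨τ, fun c hc => by simpa using hτ (AdjoinRoot.of _ ⟨c, hc⟩), by
    simpa using hτ (AdjoinRoot.root _)⟩

lemma step (F : {F // P F}) (m : ℕ) (s : Set (MvPolynomial (Fin m) ℂ)) : ∃ F' : {F // P F},
    F ≤ F' ∧ (s ⊆ S F.1 m → (Ideal.span s).IsPrime →
      ∃ z : Fin m → ℂ, (∀ i, z i ∈ F'.1) ∧ ∀ f ∈ s, eval z f = 0) := by
  by_cases h : s ⊆ S F.1 m ∧ (Ideal.span s).IsPrime
  swap
  · exact ⟨F, le_rfl, fun a b => (h ⟨a, b⟩).elim⟩
  obtain ⟨F, hF, hP⟩ := F
  obtain ⟨hs, hp⟩ := h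
  set I := Ideal.span s
  let B := MvPolynomial (Fin m) ℂ ⧸ I
  let π : MvPolynomial (Fin m) ℂ →+* FractionRing B := (algebraMap B _).comp (Ideal.Quotient.mk I)
  have cB : #B ≤ 𝔠 := (mk_le_of_surjective (Ideal.Quotient.mk_surjective (I := I))).trans
    (cardinalMk_le_max.trans (by
      simp [mk_complex, aleph0_le_continuum, (nat_lt_continuum m).le]))
  obtain ⟨σ, hσ⟩ := ext (L := FractionRing B) hF ((IsLocalization.cardinalMk_le
    (nonZeroDivisors B)).trans cB) ((π.comp C).comp F.subtype) F.subtype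
  let φ := σ.comp π
  have k : ∀ f, φ f = 0 ↔ f ∈ I := fun f => by
    simp only [φ, π, RingHom.comp_apply, map_eq_zero, FaithfulSMul.algebraMap_eq_zero_iff]
    exact Ideal.Quotient.eq_zero_iff_mem
  have hC : ∀ c ∈ F, φ (C c) = c := fun c hc => hσ ⟨c, hc⟩
  have mC : ∀ c ∈ F, C c ∈ S F m := fun c hc => ⟨C ⟨c, hc⟩, by simp⟩
  let z : Fin m → ℂ := fun i => φ (X i)
  have main : ∀ y ∈ Subfield.closure (F ∪ Set.range z), ∀ a ∈ F, a ≠ 0 → (∀ b ∈ F, b ^ 2 ≠ a) →
      y ^ 2 ≠ a := fun y hy a ha a0 hb e => by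
    have le : Subring.closure (F ∪ Set.range z) ≤ (S F m).map φ := Subring.closure_le.2 (by
      rintro _ (hc | ⟨i, rfl⟩)
      exacts [⟨_, mC _ hc, hC _ hc⟩, ⟨X i, ⟨X i, by simp⟩, rfl⟩])
    obtain ⟨_, hu', _, hv', e'⟩ := Subfield.mem_closure_iff.1 hy
    obtain ⟨u, hu, rfl⟩ := le hu'
    obtain ⟨v, hv, rfl⟩ := le hv'
    have y0 : y ≠ 0 := fun k => a0 (by simp [← e, k])
    have v0 : φ v ≠ 0 := fun k => y0 (by simp [← e', k])
    obtain ⟨τ, t1, t2⟩ := conj hF ⟨a, ha⟩ e fun b k => hb b b.2 (congrArg Subtype.val k)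
    have t3 := agree (F := F) (m := m) (map τ) (RingHom.id _) (fun c hc => by simp [t1 c hc])
      (by simp)
    have t4 : ∀ f ∈ I, map τ f ∈ I := fun f hf => (Ideal.span_le (I := I.comap (map τ))).2
      (fun g hg => show map τ g ∈ I from (t3 g (hs hg)).symm ▸ Ideal.subset_span hg) hf
    have t5 : (u - C y * v) * (u + C y * v) ∈ I := by
      rw [show (u - C y * v) * (u + C y * v) = u ^ 2 - C a * v ^ 2 by rw [← e, C_pow]; ring, ← k]
      rw [map_sub, map_mul, map_pow, map_pow, hC a ha, ← e, ← e']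
      field_simp
      ring
    have t6 : C (2 * y) * v ∈ I := by
      have q1 : map τ (u - C y * v) = u + C y * v := by simp [t3 u hu, t3 v hv, t2]
      have q2 : map τ (u + C y * v) = u - C y * v := by simp [t3 u hu, t3 v hv, t2, sub_eq_add_neg]
      rw [show C (2 * y) * v = u + C y * v - (u - C y * v) by simp [map_ofNat]; ring]
      rcases hp.mem_or_mem t5 with j | j
      exacts [I.sub_mem (q1 ▸ t4 _ j) j, I.sub_mem j (q2 ▸ t4 _ j)]
    exact v0 ((k v).2 ((I.unit_mul_mem_iff_mem ((IsUnit.mk0 _ (by simp [y0])).map C)).1 t6))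
  refine ⟨⟨Subfield.closure (F ∪ Set.range z), (Subfield.cardinalMk_closure_le_max _).trans
    (max_le ((mk_union_le _ _).trans (add_le_aleph0.2 ⟨hF, mk_le_aleph0⟩)) le_rfl), fun y hy =>
    ⟨main y hy _ (by simp) (by simp) fun b hb => (hP b hb).1,
      main y hy _ (by simp) (by simp) fun b hb => (hP b hb).2.1,
      main y hy _ (by simp) (by simp) fun b hb => (hP b hb).2.2⟩⟩,
    fun c hc => Subfield.subset_closure (.inl hc), fun _ _ => ⟨z, fun i =>
      Subfield.subset_closure (.inr ⟨i, rfl⟩), fun f hf => ?_⟩⟩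
  rw [agree (eval z) φ (fun c hc => by simp [hC c hc]) (by simp [z]) f (hs hf), k]
  exact Ideal.subset_span hf

lemma chain (g : ℕ → {F // P F} → {F // P F}) (hg : ∀ n F, F ≤ g n F) (F : {F // P F}) :
    ∃ (G : {F // P F}) (c : ℕ → {F // P F}), c 0 = F ∧ (∀ n, c (n + 1) = g n (c n)) ∧ Monotone c ∧
      ∀ x, x ∈ G.1 ↔ ∃ n, x ∈ (c n).1 := by
  let c : ℕ → {F // P F} := fun n => n.rec F g
  have mo : Monotone c := monotone_nat_of_le_succ fun n => hg n _
  have e : ∀ x, x ∈ ⨆ n, (c n).1 ↔ ∃ n, x ∈ (c n).1 := fun x =>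
    Subfield.mem_iSup_of_directed (Monotone.directed_le (f := fun n => (c n).1) mo)
  refine ⟨⟨⨆ n, (c n).1, ?_, fun y hy => ?_⟩, c, rfl, fun _ => rfl, mo, e⟩
  · have : ((⨆ n, (c n).1 : Subfield ℂ) : Set ℂ) = ⋃ n, (c n).1 := Set.ext fun x => by
      simpa using e x
    refine le_aleph0_iff_set_countable.2 (this ▸ Set.countable_iUnion fun n => ?_)
    exact le_aleph0_iff_set_countable.1 (c n).2.1
  obtain ⟨n, hn⟩ := (e y).1 hy
  exact (c n).2.2 y hn

lemma step2 (F : {F // P F}) : ∃ F' : {F // P F}, F ≤ F' ∧ ∀ (m : ℕ)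
    (s : Finset (MvPolynomial (Fin m) F.1)), (Ideal.span (map F.1.subtype ''
      (s : Set (MvPolynomial (Fin m) F.1)))).IsPrime →
      ∃ z : Fin m → ℂ, (∀ i, z i ∈ F'.1) ∧ ∀ f ∈ s, eval z (map F.1.subtype f) = 0 := by
  have : ∀ m, Countable (MvPolynomial (Fin m) F.1) := fun m => mk_le_aleph0_iff.1
    (cardinalMk_le_max.trans (by simp [F.2.1]))
  obtain ⟨d, hd⟩ := exists_surjective_nat (Σ m : ℕ, Finset (MvPolynomial (Fin m) F.1))
  choose g h1 h2 using fun n G => step G (d n).1 (map F.1.subtype ''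
    ((d n).2 : Set (MvPolynomial (Fin (d n).1) F.1)))
  obtain ⟨G, c, c0, c1, mo, e⟩ := chain g h1 F
  refine ⟨G, fun x hx => (e x).2 ⟨0, c0 ▸ hx⟩, fun m s hs => ?_⟩
  obtain ⟨n, hn⟩ := hd ⟨m, s⟩
  have := h2 n (c n)
  rw [← c1] at this
  generalize d n = q at this hn
  subst hn
  obtain ⟨z, z1, z2⟩ := this (by
    rintro _ ⟨f, -, rfl⟩
    exact S_mono (c0 ▸ mo n.zero_le : F ≤ c n) m ⟨f, rfl⟩) hs
  exact ⟨z, fun i => (e _).2 ⟨_, z1 i⟩, fun f hf => z2 _ ⟨f, hf, rfl⟩⟩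

lemma pac : ∃ K : Subfield ℂ, P K ∧ ∀ (m : ℕ) (s : Finset (MvPolynomial (Fin m) K)),
    (Ideal.span (map K.subtype '' (s : Set (MvPolynomial (Fin m) K)))).IsPrime →
      ∃ z : Fin m → K, ∀ f ∈ s, eval z f = 0 := by
  classical
  choose g h1 h2 using step2
  have b : P ⊥ := by
    have e : ∀ y ∈ (⊥ : Subfield ℂ), ∃ q : ℚ, y = q := fun y hy => by
      obtain ⟨q, hq⟩ := (bot_le : ⊥ ≤ (Rat.castHom ℂ).fieldRange) hy
      exact ⟨q, hq.symm⟩
    refine ⟨le_aleph0_iff_set_countable.2 ((Set.countable_range ((↑) : ℚ → ℂ)).mono fun y hy =>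
      (e y hy).imp fun _ => Eq.symm), fun y hy => ?_⟩
    obtain ⟨q, rfl⟩ := e y hy
    norm_cast
    refine ⟨fun k => ?_, fun k => ?_, fun k => ?_⟩
    · push_cast at k
      nlinarith
    · refine irrational_sqrt_two ⟨|q|, ?_⟩
      rw [← (by exact_mod_cast k : (q : ℝ) ^ 2 = 2), Real.sqrt_sq_eq_abs]
      simp
    · push_cast at k
      nlinarith
  obtain ⟨G, c, -, c1, mo, e⟩ := chain (fun _ => g) (fun _ => h1) ⟨⊥, b⟩
  refine ⟨G.1, G.2, fun m s hs => ?_⟩
  obtain ⟨n, hn⟩ : ∃ n, ∀ f ∈ s, map G.1.subtype f ∈ S (c n).1 m := by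
    have : ∀ f : MvPolynomial (Fin m) G.1, ∀ᶠ n in Filter.atTop, map G.1.subtype f ∈ S (c n).1 m :=
      fun f => by
      induction f using MvPolynomial.induction_on with
      | C a =>
        obtain ⟨n, hn⟩ := (e a).1 a.2
        filter_upwards [Filter.eventually_ge_atTop n] with k hk using ⟨C ⟨a, mo hk hn⟩, by simp⟩
      | add p q hp hq =>
        filter_upwards [hp, hq] with k a b using by rw [map_add]; exact add_mem a b
      | mul_X p i hp =>
        filter_upwards [hp] with k a using by rw [map_mul]; exact mul_mem a ⟨X i, by simp⟩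
    exact ((Filter.eventually_all_finset s).2 fun f _ => this f).exists
  choose! r hr using hn
  obtain ⟨z, z1, z2⟩ := h2 (c n) m (s.image r) (by
    rw [Finset.coe_image, Set.image_image, Set.image_congr fun f hf => hr f hf]
    exact hs)
  refine ⟨fun i => ⟨z i, (e _).2 ⟨n + 1, c1 n ▸ z1 i⟩⟩, fun f hf => G.1.subtype.injective ?_⟩
  rw [map_zero, ← z2 _ (Finset.mem_image_of_mem r hf), hr f hf, eval_map, eval₂_comp]
  rfl

lemma link (K : Subfield ℂ) (hK : ∀ (m : ℕ) (s : Finset (MvPolynomial (Fin m) K)),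
    (Ideal.span (map K.subtype '' (s : Set (MvPolynomial (Fin m) K)))).IsPrime →
      ∃ z : Fin m → K, ∀ f ∈ s, eval z f = 0) (A : Type) [CommRing A] [Algebra K A]
    [Algebra.FiniteType K A] [IsDomain (A ⊗[K] ℂ)] : Nonempty (A →ₐ[K] K) := by
  obtain ⟨m, f, hf⟩ := Algebra.FiniteType.iff_quotient_mvPolynomial''.1 ‹_›
  obtain ⟨s, hs⟩ := IsNoetherian.noetherian (RingHom.ker f)
  set J := Ideal.span (map K.subtype '' (s : Set (MvPolynomial (Fin m) K)))
  have lf : ∀ {T : Type} [CommRing T] [Algebra K T] (g : MvPolynomial (Fin m) K →ₐ[K] T),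
      (∀ p ∈ s, g p = 0) → ∃ g' : A →ₐ[K] T, ∀ p, g' (f p) = g p := fun g hg =>
    ⟨(Ideal.Quotient.liftₐ (RingHom.ker f) g fun p hp => (show RingHom.ker f ≤ RingHom.ker g from
      hs ▸ Ideal.span_le.2 hg) hp).comp (Ideal.quotientKerAlgEquivOfSurjective hf).symm.toAlgHom,
      fun p => by simp⟩
  obtain ⟨g, hg⟩ := lf ((Ideal.Quotient.mkₐ K J).comp (mapAlgHom (Algebra.ofId K ℂ)))
    fun p hp => Ideal.Quotient.eq_zero_iff_mem.2 (Ideal.subset_span ⟨p, hp, rfl⟩)
  let α : MvPolynomial (Fin m) ℂ →+* A ⊗[K] ℂ :=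
    eval₂Hom Algebra.TensorProduct.includeRight.toRingHom fun i => f (X i) ⊗ₜ 1
  let β := Algebra.TensorProduct.productMap g (IsScalarTower.toAlgHom K ℂ _)
  have e : β.toRingHom.comp α = Ideal.Quotient.mk J := MvPolynomial.ringHom_ext
    (fun c => by simp [α, β]; rfl) fun i => by simp [α, β, hg]
  have e2 : α.comp (map K.subtype) = Algebra.TensorProduct.includeLeftRingHom.comp f.toRingHom :=
    MvPolynomial.ringHom_ext (fun c => by
      simp [α, Algebra.algebraMap_eq_smul_one, TensorProduct.smul_tmul,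
        Subfield.smul_def]) fun i => by simp [α]
  have : J = RingHom.ker α := le_antisymm (Ideal.span_le.2 (by
    rintro _ ⟨p, hp, rfl⟩
    have : f p = 0 := (show Ideal.span s ≤ RingHom.ker f from hs.le) (Ideal.subset_span hp)
    simpa [this] using DFunLike.congr_fun e2 p)) fun p hp => by
      rw [← Ideal.Quotient.eq_zero_iff_mem, ← e, RingHom.comp_apply, (RingHom.mem_ker.1 hp),
        map_zero]
  obtain ⟨z, hz⟩ := hK m s (show J.IsPrime from this ▸ RingHom.ker_isPrime α)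
  exact ⟨(lf (aeval z) hz).choose⟩

open AlgebraicGeometry CategoryTheory Limits in
lemma sch (K : Type) [Field K] [Algebra K ℂ] (h : ∀ (A : Type) [CommRing A] [Algebra K A]
    [Algebra.FiniteType K A] [IsDomain (A ⊗[K] ℂ)], Nonempty (A →ₐ[K] K)) (X : Scheme)
    (f : X ⟶ Spec (.of K)) [LocallyOfFiniteType f] [GeometricallyIntegral f] :
    ∃ s : Spec (.of K) ⟶ X, s ≫ f = 𝟙 _ := by
  let y := Spec.map (CommRingCat.ofHom (algebraMap K ℂ))
  have := pullback_of_geometrically (GeometricallyIntegral.geometrically_isIntegral (f := f)) ℂ y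
  have := GeometricallyIntegral.isIntegral_of_subsingleton f
  obtain ⟨x⟩ : Nonempty X := inferInstance
  obtain ⟨R, j, _, hx, -⟩ := X.exists_affine_mem_range_and_range_subset (x := x) (U := ⊤) trivial
  obtain ⟨φ, hφ⟩ := Spec.map_surjective (j ≫ f)
  have ft : φ.hom.FiniteType := HasRingHomProperty.Spec_iff.1 (hφ ▸ inferInstance :
    LocallyOfFiniteType (Spec.map φ))
  algebraize [φ.hom]
  have : Nontrivial R := by
    obtain ⟨p, -⟩ := hx
    exact p.nontrivial
  have : Nontrivial (R ⊗[K] ℂ) := inferInstance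
  let k := (pullbackSpecIso K R ℂ).inv ≫ pullback.map _ y f y j (𝟙 _) (𝟙 _)
    (by rw [Category.comp_id, ← hφ]; rfl) (by simp [y])
  have : IsIntegral (Spec (.of (R ⊗[K] ℂ))) := isIntegral_of_isOpenImmersion k
  have : IsDomain (R ⊗[K] ℂ) := (affine_isIntegral_iff _).1 this
  obtain ⟨g⟩ := h R
  refine ⟨Spec.map (CommRingCat.ofHom g.toRingHom) ≫ j, ?_⟩
  rw [Category.assoc, ← hφ, ← Spec.map_comp, ← Spec.map_id]
  congr 1
  ext c
  exact g.commutes c

lemma gal (K : Type) [Field K] [CharZero K] (h : ∀ y : K, y ^ 2 ≠ -1 ∧ y ^ 2 ≠ 2 ∧ y ^ 2 ≠ -2) :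
    ¬∃ g : Field.absoluteGaloisGroup K, (Subgroup.zpowers g).topologicalClosure = ⊤ := by
  rintro ⟨g : Gal(AlgebraicClosure K/K), hg⟩
  have k : ∀ (x : AlgebraicClosure K) (a : K), x ^ 2 = algebraMap _ _ a → (∀ y : K, y ^ 2 ≠ a) →
      g x = -x := fun x a ha hb => by
    refine (sq_eq_sq_iff_eq_or_eq_neg.1 (by rw [← map_pow, ha, AlgEquiv.commutes])).resolve_left
      fun e => ?_
    have := Subgroup.topologicalClosure_minimal _ ((Subgroup.zpowers_le (G := Gal(_/K))).2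
      (MulAction.mem_stabilizer_iff.2 e)) (Subgroup.isClosed_of_isOpen _
      (stabilizer_isOpen_of_isIntegral x))
    obtain ⟨y, rfl⟩ := (InfiniteGalois.mem_range_algebraMap_iff_fixed x).2 fun σ =>
      (hg.ge.trans this) (Subgroup.mem_top σ)
    exact hb y ((algebraMap K (AlgebraicClosure K)).injective (by rw [map_pow, ha]))
  obtain ⟨i, hi⟩ := IsAlgClosed.exists_pow_nat_eq (-1 : AlgebraicClosure K) two_pos
  obtain ⟨s, hs⟩ := IsAlgClosed.exists_pow_nat_eq (2 : AlgebraicClosure K) two_pos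
  have a := k i (-1) (by simp [hi]) fun y => (h y).1
  have b := k s 2 (by simp [hs, map_ofNat]) fun y => (h y).2.1
  have c := k (i * s) (-2) (by simp [mul_pow, hi, hs, map_ofNat]) fun y => (h y).2.2
  rw [map_mul, a, b, neg_mul_neg, CharZero.eq_neg_self_iff] at c
  have := congrArg (· ^ 2) c
  simp [mul_pow, hi, hs] at this

open AlgebraicGeometry CategoryTheory in
/-- A field of characteristic `0` over which every geometrically integral scheme locally of finite
type has a rational point, and whose absolute Galois group is not procyclic. -/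
theorem result : ∃ (K : Type) (_ : Field K), CharZero K ∧
    (∀ (X : Scheme) (f : X ⟶ Spec (.of K)) [LocallyOfFiniteType f] [GeometricallyIntegral f],
      ∃ s : Spec (.of K) ⟶ X, s ≫ f = 𝟙 _) ∧
    ¬∃ g : Field.absoluteGaloisGroup K, (Subgroup.zpowers g).topologicalClosure = ⊤ := by
  obtain ⟨K, hP, hK⟩ := pac
  refine ⟨K, inferInstance, inferInstance, sch K (link K hK), gal K fun y => ?_⟩
  obtain ⟨a, b, c⟩ := hP.2 y y.2
  exact ⟨fun e => a (congrArg Subtype.val e), fun e => b (congrArg Subtype.val e),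
    fun e => c (congrArg Subtype.val e)⟩

end Pool.Agent.Results.MP_023059_nt.Pac
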